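import Pool.Agent.Work.MP_0e2194_an.Strong

/-!
# Weak flexibility of Lyapunov exponents, vectorwise (Oseledets) form
-/

open MeasureTheory Filter Topology

namespace Pool.Agent.Results.MP_0e2194_an.OseledetsForm

/-- `HasExponent F x v l`: the vector `v` at the point `x` has Lyapunov exponent `l` under the
derivative cocycle of `F`, i.e. `(1/n) log ‖D_x F^n v‖` converges to `l`. -/
def HasExponent (F : (Fin 2 → ℝ) → (Fin 2 → ℝ)) (x v : Fin 2 → ℝ) (l : ℝ) : Prop :=
  Tendsto (fun n : ℕ => 1 / (n : ℝ) * Real.log ‖fderiv ℝ (F^[n]) x v‖) atTop (𝓝 l)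

/-- For all reals `l1 ≤ l2` with `l1 + l2 > 0` there is a smooth map `f` of the 2-torus (with
smooth lift `F`) with everywhere positive Jacobian, preserving Lebesgue measure, all of whose
iterates are ergodic, such that at almost every point all nonzero vectors have a Lyapunov
exponent: it is `l2` for the vectors outside the vertical direction, and `l1` for the nonzero
vertical vectors. -/
theorem result :
    ∀ l1 l2 : ℝ, l1 ≤ l2 → 0 < l1 + l2 →
      ∃ (f : (Fin 2 → UnitAddCircle) → (Fin 2 → UnitAddCircle))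
        (F : (Fin 2 → ℝ) → (Fin 2 → ℝ)),
        ContDiff ℝ (⊤ : ℕ∞) F ∧
        (∀ x : Fin 2 → ℝ,
          f (fun i => ((x i : ℝ) : UnitAddCircle)) = fun i => ((F x i : ℝ) : UnitAddCircle)) ∧
        (∀ x : Fin 2 → ℝ, 0 < (fderiv ℝ F x).det) ∧
        MeasurePreserving f volume volume ∧
        (∀ k : ℕ, 1 ≤ k → Ergodic (f^[k]) volume) ∧
        ∀ᵐ x ∂(volume : Measure (Fin 2 → ℝ)), ∀ v : Fin 2 → ℝ, v ≠ 0 →
          (v 0 ≠ 0 → HasExponent F x v l2) ∧ (v 0 = 0 → HasExponent F x v l1) := by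
  intro l1 l2 hle h
  obtain ⟨f, F, h1, h2, h3, h4, h5, h6⟩ := Pool.Agent.Work.MP_0e2194_an.final_vec hle h
  refine ⟨f, F, h1, h2, h3, h4, h5, ?_⟩
  filter_upwards [h6] with x hx v hv
  exact ⟨fun h0 => hx.1 v h0, fun h0 => hx.2 v h0 hv⟩

end Pool.Agent.Results.MP_0e2194_an.OseledetsForm
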